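import Pool.Agent.U723.SU.Gon

/-!
# The question for `N = 1`: preperiodic points of bounded gonality of ALL rational maps

Q1 of the problem is answered in the affirmative for `N = 1`: for all `D` and `d ≥ 2` there is a
constant `N(D, d)` such that every non-isotrivial rational map of degree `d` over a function field `K`
of one variable has at most `N(D, d)` preperiodic points `z` in the projective line over an algebraic
closure of `K` with `gonal(K(z)) ≤ D`. So `V_{f,D}` is empty and the constant depends on `d` and `D`
only. The constants may form any field of characteristic zero.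

The hand-ins `Polynomials`, `RationalMapsGonalityOne`, `LargeCriticalHeight` and `FiniteMultiplierFibre` of
this problem are special cases (classes of maps, or `D = 1`).

Proof. Let `z` be such a point, `E = K(z)`. The orbit of `z` consists of points of `P^1(E)`. The map is
not isotrivial over `E`, which is of degree at most `D` over a rational function field, so by strong
uniform boundedness over function fields of characteristic zero (the library theorem `S_main`,
`Pool.Agent.Q144.SU.B.t_main` with `Pool.Agent.Q103.FS.core0`) it has at most `M(D, d)` preperiodic points in
`P^1(E)`. So `f^a (z) = f^b (z)` for some `b < a ≤ M(D, d)`, and there are at most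
`(M + 1) ^ 2 (2 d ^ M + 1)` such points (`Y706/CH/Gon.lean`).
-/

set_option autoImplicit false

namespace Pool.Agent.Results.MP_62a0c3_nt.AllMapsOfTheLine

open Polynomial

universe u v

/-- The self-map of the projective line `K ∪ {∞}`, where `none` is `∞`, given by the rational
function `p / q`, where `p` and `q` are coprime and `d` is the larger of their degrees: it sends
`x` to `p(x) / q(x)`, or to `∞` when `q(x) = 0`, and it sends `∞` to the quotient of the
coefficients of degree `d`, or to `∞` when that of `q` is zero. -/
noncomputable def mapP1 {K : Type*} [Field K] (p q : K[X]) (d : ℕ) : Option K → Option K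
  | some x => by classical exact if q.eval x = 0 then none else some (p.eval x / q.eval x)
  | none => by classical exact if q.coeff d = 0 then none else some (p.coeff d / q.coeff d)

/-- With `φ(x) = (a x + b) / (c x + e)`, the map `p / q` of degree `d` satisfies
`φ ∘ (p / q) = (u / w) ∘ φ` for some `a, b, c, e` in `K` with `a e ≠ b c` and some polynomials
`u, w` of degree at most `d`, not both zero, with coefficients algebraic over `k`; the equation is
written with denominators cleared. -/
def IsotrivialOver (k : Type*) {K : Type*} [Field k] [Field K] [Algebra k K] (p q : K[X])
    (d : ℕ) : Prop :=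
  ∃ a b c e : K, a * e - b * c ≠ 0 ∧ ∃ u w : K[X], (u ≠ 0 ∨ w ≠ 0) ∧
    u.natDegree ≤ d ∧ w.natDegree ≤ d ∧ (∀ n, IsAlgebraic k (u.coeff n)) ∧
    (∀ n, IsAlgebraic k (w.coeff n)) ∧
    (C a * p + C b * q) * ∑ i ∈ Finset.range (d + 1),
      C (w.coeff i) * (C a * X + C b) ^ i * (C c * X + C e) ^ (d - i) =
    (C c * p + C e * q) * ∑ i ∈ Finset.range (d + 1),
      C (u.coeff i) * (C a * X + C b) ^ i * (C c * X + C e) ^ (d - i)

/-- The field `E` over `k` is a finite extension of `k(t)` of degree at most `D` for some `t`
transcendental over `k`: it is the function field of a curve over `k` of gonality at most `D`. -/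
def GonalityLE (k E : Type*) [Field k] [Field E] [Algebra k E] (D : ℕ) : Prop :=
  ∃ t : E, Transcendental k t ∧ FiniteDimensional (IntermediateField.adjoin k {t}) E ∧
    Module.finrank (IntermediateField.adjoin k {t}) E ≤ D

/-- The set `Preper(f, D)` for the rational map `f = p / q` of degree `d` over `K`: the points `z`
of the projective line over an algebraic closure of `K` with finite orbit for which the field
`K(z)` has gonality at most `D` over `k`. -/
def Preper (k : Type*) {K : Type*} [Field k] [Field K] [Algebra k K] (p q : K[X]) (d D : ℕ) :
    Set (Option (AlgebraicClosure K)) :=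
  {z | (Set.range fun m : ℕ => (mapP1 (p.map (algebraMap K (AlgebraicClosure K)))
      (q.map (algebraMap K (AlgebraicClosure K))) d)^[m] z).Finite ∧
    GonalityLE k (IntermediateField.adjoin K {x : AlgebraicClosure K | z = some x}) D}

/-- **Q1 for `N = 1`.** There is a function `N` such that for every field `k` of characteristic
zero (in particular for the field of complex numbers), every field `K` over `k` (the function field
of a curve), every `D`, `d ≥ 2` and every rational map `f = p / q` of degree `d` over `K` which is not
isotrivial (over an algebraic closure of `K`) the set `Preper(f, D)` has at most `N(D, d)` points. -/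
theorem result : ∃ N : ℕ → ℕ → ℕ, ∀ (k : Type v) (K : Type u) [Field k] [CharZero k]
    [Field K] [Algebra k K] (D d : ℕ), 2 ≤ d →
    ∀ p q : K[X], IsCoprime p q → max p.natDegree q.natDegree = d →
      ¬ IsotrivialOver k (p.map (algebraMap K (AlgebraicClosure K)))
          (q.map (algebraMap K (AlgebraicClosure K))) d →
      (Preper k p q d D).encard ≤ ((N D d : ℕ) : ℕ∞) := by
  obtain ⟨N, hN⟩ := Pool.Agent.U723.SU.gon.{u, v}
  refine ⟨N, ?_⟩
  intro k K _ _ _ _ D d hd p q hco hmax hiso
  have e : ∀ (K : Type u) [Field K] (p q : K[X]) (d : ℕ),
      mapP1 p q d = Pool.Agent.W277.UH.ratP1 p q d := by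
    intro K _ p q d
    funext z
    cases z <;> rfl
  have hP : Preper k p q d D = {z : Option (AlgebraicClosure K) | (Set.range fun m : ℕ =>
        (Pool.Agent.W277.UH.ratP1 (p.map (algebraMap K (AlgebraicClosure K)))
          (q.map (algebraMap K (AlgebraicClosure K))) d)^[m] z).Finite ∧
      ∃ t : IntermediateField.adjoin K {x | z = some x}, Transcendental k t ∧
        FiniteDimensional (IntermediateField.adjoin k {t})
          (IntermediateField.adjoin K {x | z = some x}) ∧
        Module.finrank (IntermediateField.adjoin k {t})
          (IntermediateField.adjoin K {x | z = some x}) ≤ D} := by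
    unfold Preper
    rw [e]
    rfl
  rw [hP]
  exact hN k K D d hd p q hco hmax hiso

end Pool.Agent.Results.MP_62a0c3_nt.AllMapsOfTheLine
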