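import Pool.Agent.U934.GF.Asm

/-!
# Preperiodic points of bounded gonality: the projective line, and all endomorphisms of projective
# spaces with a one-dimensional factor

Let `K` be a field over `k` (for the question: the function field of a curve over `ℂ = k`), and let
`f` be an endomorphism of `P^n` over `K` which is not isotrivial.  The question asks for a bound
`C(d, n, D)` for the number of preperiodic points `x` of `f`, outside a proper subvariety (which
has to be empty for `n = 1`), such that the field `K(x)` has gonality at most `D` over `k`.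

* For `n = 1` this is proved here completely: all degrees `d ≥ 2`, all `D`, all fields `K`, with
  one constant `C(d, D)`.
* For every `n` it is proved here, with no point at all outside the subvariety, and with a bound for
  the degree of the subvariety, for all endomorphisms with a one-dimensional factor which is not
  isotrivial: for the endomorphisms which act on a pencil of hypersurfaces, and more generally on
  a family of binary forms `R(x; y)`, `x ∈ P^n`, `y ∈ P^1`.
* For every `n` it is proved here with the empty subvariety, that is a bound for the number of all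
  points of `Preper(f, D)`, for the `n`-th symmetric powers of the endomorphisms of `P^1` which are
  not isotrivial.
-/

set_option autoImplicit false

namespace Pool.Agent.Results.MP_62a0c3_nt.OneDimensionalFactors

universe u v

/-- The field `E` over `k` is a finite extension of `k(t)` of degree at most `D` for some `t`
transcendental over `k`: it is the function field of a curve over `k` of gonality at most `D`. -/
def GonalityLE (k E : Type*) [Field k] [Field E] [Algebra k E] (D : ℕ) : Prop :=
  ∃ t : E, Transcendental k t ∧ FiniteDimensional (IntermediateField.adjoin k {t}) E ∧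
    Module.finrank (IntermediateField.adjoin k {t}) E ≤ D

section

variable {K : Type u} [Field K]

/-- The forms `F_0, …, F_n` of degree `d` over `K` in `n + 1` variables, without common zeros in
the projective space over the algebraic closure of `K`: an endomorphism of `P^n` over `K` of
degree `d`. -/
structure IsEndomorphism (n d : ℕ) (F : Fin (n + 1) → MvPolynomial (Fin (n + 1)) K) : Prop where
  hom : ∀ i, (F i).IsHomogeneous d
  noZero : ∀ v : Fin (n + 1) → AlgebraicClosure K, (∀ i, MvPolynomial.aeval v (F i) = 0) → v = 0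

/-- The action of the endomorphism on homogeneous coordinates. -/
noncomputable def act {n : ℕ} (F : Fin (n + 1) → MvPolynomial (Fin (n + 1)) K)
    (v : Fin (n + 1) → AlgebraicClosure K) : Fin (n + 1) → AlgebraicClosure K :=
  fun i => MvPolynomial.aeval v (F i)

/-- The points of the projective space `P^n` over the algebraic closure of `K`. -/
abbrev Point (K : Type u) [Field K] (n : ℕ) : Type u :=
  Projectivization (AlgebraicClosure K) (Fin (n + 1) → AlgebraicClosure K)

/-- The point `x` is preperiodic: `F^l (x) = F^m (x)` for some `m < l`. -/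
def IsPreperiodic {n : ℕ} (F : Fin (n + 1) → MvPolynomial (Fin (n + 1)) K) (x : Point K n) :
    Prop :=
  ∃ m l : ℕ, m < l ∧ ∃ c : AlgebraicClosure K, c ≠ 0 ∧
    (act F)^[l] x.rep = c • (act F)^[m] x.rep

/-- The field `K(x)` generated over `K` by the quotients of the homogeneous coordinates of `x`. -/
noncomputable def fieldOf {n : ℕ} (x : Point K n) : IntermediateField K (AlgebraicClosure K) :=
  IntermediateField.adjoin K {a | ∃ i j, x.rep j ≠ 0 ∧ a = x.rep i / x.rep j}

/-- The set `Preper(F, D)`: the preperiodic points `x` of `F` in `P^n` over the algebraic closure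
of `K` for which the field `K(x)` has gonality at most `D` over `k`. -/
def Preper (k : Type v) [Field k] [Algebra k K] {n : ℕ}
    (F : Fin (n + 1) → MvPolynomial (Fin (n + 1)) K) (D : ℕ) : Set (Point K n) :=
  {x | IsPreperiodic F x ∧ GonalityLE k (fieldOf x) D}

/-- The endomorphism `F` is isotrivial: for some invertible matrix `A` over the algebraic closure
of `K`, the coefficients of `A⁻¹ ∘ F ∘ A` are algebraic over `k` (so they are in `k` if `k` is
algebraically closed). -/
def Isotrivial (k : Type v) [Field k] [Algebra k K] {n : ℕ} (d : ℕ)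
    (F : Fin (n + 1) → MvPolynomial (Fin (n + 1)) K) : Prop :=
  ∃ (A : Matrix (Fin (n + 1)) (Fin (n + 1)) (AlgebraicClosure K))
    (F' : Fin (n + 1) → MvPolynomial (Fin (n + 1)) (AlgebraicClosure K)),
    A.det ≠ 0 ∧ (∀ i, (F' i).IsHomogeneous d) ∧ (∀ i s, IsAlgebraic k ((F' i).coeff s)) ∧
    ∀ v : Fin (n + 1) → AlgebraicClosure K, v ≠ 0 → ∃ c : AlgebraicClosure K, c ≠ 0 ∧
      act F (A.mulVec v) = c • A.mulVec (fun i => MvPolynomial.eval v (F' i))

/-- The value `∑_j R_j(v) y_0^j y_1^(m - j)` at `(v, y)` of a form of degree `m` in `y` whose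
coefficients are polynomials in `v`. -/
noncomputable def value {n m : ℕ} (R : Fin (m + 1) → MvPolynomial (Fin (n + 1)) K)
    (v : Fin (n + 1) → AlgebraicClosure K) (y : Fin 2 → AlgebraicClosure K) :
    AlgebraicClosure K :=
  ∑ j : Fin (m + 1), MvPolynomial.aeval v (R j) * y 0 ^ (j : ℕ) * y 1 ^ (m - j : ℕ)

end

/-- The product of the linear forms `p_{i,1} X - p_{i,0} Y` for `i = 1, …, n`, dehomogenised by
`Y = 1`: the binary form of degree `n` with the zeros `p_1, …, p_n` in the projective line. -/
noncomputable def form {A : Type u} [Field A] {n : ℕ} (p : Fin n → Fin 2 → A) : Polynomial A :=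
  ∏ i, (Polynomial.C (p i 1) * Polynomial.X - Polynomial.C (p i 0))

/-- The homogeneous coordinates of the point of `P^n` with the zeros `p_1, …, p_n`: the
coefficients of the form, where the `j`-th one is that of `X ^ j Y ^ (n - j)`. -/
noncomputable def point {A : Type u} [Field A] {n : ℕ} (p : Fin n → Fin 2 → A) :
    Fin (n + 1) → A :=
  fun j => (form p).coeff j

/-- The endomorphism `Φ` of `P^n` is the `n`-th symmetric power of the endomorphism `f` of `P^1`:
it takes the form with the zeros `p_1, …, p_n` to the form with the zeros `f(p_1), …, f(p_n)`. -/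
def IsSymmetricPower {K : Type u} [Field K] {n : ℕ} (f : Fin 2 → MvPolynomial (Fin 2) K)
    (Φ : Fin (n + 1) → MvPolynomial (Fin (n + 1)) K) : Prop :=
  ∀ p : Fin n → Fin 2 → AlgebraicClosure K, act Φ (point p) = point fun i => act f (p i)

/-- (1) Every endomorphism `f` of `P^1` over `K` of degree `d ≥ 2` which is not isotrivial has at most
`C(d, D)` preperiodic points `x` over the algebraic closure of `K` such that `K(x)` has gonality at
most `D` over `k`. -/
def LineBound (k : Type v) (K : Type u) [Field k] [Field K] [Algebra k K] (C : ℕ → ℕ → ℕ) :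
    Prop :=
  ∀ (d D : ℕ), 2 ≤ d → ∀ f : Fin 2 → MvPolynomial (Fin 2) K, IsEndomorphism 1 d f →
    ¬ Isotrivial k d f → (Preper k f D).encard ≤ (C d D : ℕ∞)

/-- (2) Let `F` be an endomorphism of `P^n` over `K` of degree `d ≥ 2`, let `P_0, P_1` be forms of
degree `r` which are linearly independent over the algebraic closure, and suppose that `F` acts on
the pencil of these forms by an endomorphism `g` of `P^1` which is not isotrivial:
`P_j ∘ F = g_j(P_0, P_1)`.  Then all points of `Preper(F, D)` are on the members of the pencil at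
`C(d, D)` points `s` of `P^1` at most (or on the base locus, which is on all of them). -/
def PencilBound (k : Type v) (K : Type u) [Field k] [Field K] [Algebra k K] (C : ℕ → ℕ → ℕ) :
    Prop :=
  ∀ (n d D r : ℕ), 2 ≤ d → ∀ F : Fin (n + 1) → MvPolynomial (Fin (n + 1)) K,
    IsEndomorphism n d F → ∀ P : Fin 2 → MvPolynomial (Fin (n + 1)) K,
    (∀ j, (P j).IsHomogeneous r) →
    (∀ a : Fin 2 → AlgebraicClosure K, a ≠ 0 → ∃ v : Fin (n + 1) → AlgebraicClosure K,
      a 0 * MvPolynomial.aeval v (P 0) + a 1 * MvPolynomial.aeval v (P 1) ≠ 0) →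
    ∀ g : Fin 2 → MvPolynomial (Fin 2) K, IsEndomorphism 1 d g → ¬ Isotrivial k d g →
    (∀ j, MvPolynomial.bind₁ F (P j) = MvPolynomial.bind₁ P (g j)) →
    ∃ S : Set (Point K 1), S.encard ≤ (C d D : ℕ∞) ∧ ∀ x ∈ Preper k F D,
      (∀ j, MvPolynomial.aeval x.rep (P j) = 0) ∨ ∃ s ∈ S,
        MvPolynomial.aeval x.rep (P 0) * s.rep 1 = MvPolynomial.aeval x.rep (P 1) * s.rep 0

/-- (3) Let `F` be an endomorphism of `P^n` over `K` of degree `d`, let `g` be an endomorphism of
`P^1` over `K` of degree `e ≥ 2` which is not isotrivial, and let `R(x; y) = ∑_j R_j(x) y_0^j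
y_1^(m-j)`, `m ≥ 1`, with forms `R_j` of degree `r` over `K`, such that `R(x; y) = 0` implies
`R(F(x); g(y)) = 0`, no point `y` satisfies `R(x; y) = 0` for all `x`, and the common zeros of the
`R_j` contain their inverse image under `F`.  Then there is a form `H ≠ 0` over the algebraic
closure of degree at most `r C(e, m D)` which vanishes at all points of `Preper(F, D)`. -/
def FactorBound (k : Type v) (K : Type u) [Field k] [Field K] [Algebra k K] (C : ℕ → ℕ → ℕ) :
    Prop :=
  ∀ (n d e m r D : ℕ), 2 ≤ e → 1 ≤ m → ∀ F : Fin (n + 1) → MvPolynomial (Fin (n + 1)) K,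
    IsEndomorphism n d F → ∀ g : Fin 2 → MvPolynomial (Fin 2) K, IsEndomorphism 1 e g →
    ¬ Isotrivial k e g → ∀ R : Fin (m + 1) → MvPolynomial (Fin (n + 1)) K,
    (∀ j, (R j).IsHomogeneous r) →
    (∀ v y, value R v y = 0 → value R (act F v) (act g y) = 0) →
    (∀ y : Fin 2 → AlgebraicClosure K, y ≠ 0 → ∃ v, value R v y ≠ 0) →
    (∀ v : Fin (n + 1) → AlgebraicClosure K, v ≠ 0 →
      (∀ j, MvPolynomial.aeval (act F v) (R j) = 0) → ∀ j, MvPolynomial.aeval v (R j) = 0) →
    ∃ (h : ℕ) (H : MvPolynomial (Fin (n + 1)) (AlgebraicClosure K)), h ≤ r * C e (m * D) ∧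
      H ≠ 0 ∧ H.IsHomogeneous h ∧ ∀ x ∈ Preper k F D, MvPolynomial.eval x.rep H = 0

/-- (4) For every `n ≥ 1` and every endomorphism `f` of `P^1` over `K` of degree `d ≥ 2` which is
not isotrivial, the `n`-th symmetric power `Φ` of `f` has at most `C(d, n D)^n` preperiodic points
`x ∈ P^n` over the algebraic closure of `K` such that `K(x)` has gonality at most `D` over `k`. -/
def PowerBound (k : Type v) (K : Type u) [Field k] [Field K] [Algebra k K] (C : ℕ → ℕ → ℕ) :
    Prop :=
  ∀ (n d D : ℕ), 2 ≤ d → 1 ≤ n → ∀ f : Fin 2 → MvPolynomial (Fin 2) K, IsEndomorphism 1 d f →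
    ¬ Isotrivial k d f → ∀ Φ : Fin (n + 1) → MvPolynomial (Fin (n + 1)) K,
    IsEndomorphism n d Φ → IsSymmetricPower f Φ →
    (Preper k Φ D).encard ≤ ((C d (n * D) ^ n : ℕ) : ℕ∞)

/-- For every characteristic `c` (in particular `c = 0`) there is a function `C` such that for all
fields `k` of characteristic `c` and all fields `K` over `k` the bounds (1), (2), (3) and (4) are
true. -/
theorem result (c : ℕ) : ∃ C : ℕ → ℕ → ℕ,
    ∀ (k : Type v) (K : Type u) [Field k] [CharP k c] [Field K] [Algebra k K],
      LineBound k K C ∧ PencilBound k K C ∧ FactorBound k K C ∧ PowerBound k K C := by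
  obtain ⟨C, hC⟩ := Pool.Agent.U934.GF.final.{u, v} c
  refine ⟨C, fun k K _ _ _ _ => ⟨?_, ?_, ?_, ?_⟩⟩
  · intro d D hd f hf hiso
    exact (hC k K).1 d D hd f ⟨hf.hom, hf.noZero⟩ hiso
  · intro n d D r hd F hF P hP _ g hg hiso hFg
    exact (hC k K).2.1 n d D r hd F ⟨hF.hom, hF.noZero⟩ P hP g ⟨hg.hom, hg.noZero⟩ hiso hFg
  · intro n d e m r D he hm F hF g hg hiso R hR h1 h2 h3
    exact (hC k K).2.2.1 n d e m r D he hm F ⟨hF.hom, hF.noZero⟩ g ⟨hg.hom, hg.noZero⟩ hiso R hR
      h1 h2 h3
  · intro n d D hd hn f hf hiso Φ hΦ hs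
    exact (hC k K).2.2.2 n d D hd hn f ⟨hf.hom, hf.noZero⟩ hiso Φ ⟨hΦ.hom, hΦ.noZero⟩ hs

end Pool.Agent.Results.MP_62a0c3_nt.OneDimensionalFactors
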